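import Pool.Agent.W896.FD.MEq

/-!
# Multiset equality: the randomised logspace algorithm against few reads with a stack

Two lists of `N` words of `w` bits are given (`2 N w` bits); the problem is to decide if they contain
the same words with the same multiplicities. A randomised machine with a read-once random tape and a
memory of `O (log (N w))` bits decides this with one-sided error in a single pass, that is, it reads
each bit once (Lipton's fingerprints: compare the sums of `r ^ word` modulo a random prime): two
lists which are equal as multisets are always accepted, all other pairs are rejected with
probability at least one half. (This known upper bound is not formalised here.)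

We show that machines without random bits on the accepting side, even nondeterministic ones with an
unlimited stack, cannot do this. We consider Boolean circuits with AND gates of fan-in two, OR gates
of any fan-in and negations at the inputs. Such a circuit accepts if and only if it has a proof tree
all of whose leaves are true literals; the formal degree in an input bit is the largest number of
leaves with this bit, that is, the number of times this bit is read. Nondeterministic, in particular
deterministic, branching programs are such circuits (the logarithm of the size is the memory, and a
bit which is read at most `k` times on every path has degree at most `k`), and so are programs with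
a stack; a proof tree of a circuit may even read any part of the input again and again in its
branches. There is no bound on the time.

The circuits which accept exactly the pairs of lists which are equal as multisets have size
`2 ^ Ω (N)` if the total formal degree is linear in the length `2 N w` of the input. So each
deterministic algorithm, even a nondeterministic one with a stack, with a memory of `o (N)` bits
needs superlinear reading time. It is even enough to bound the degrees in a single column, the `2 N`
bits with the same position in the words, and then the statement remains true for circuits with
one-sided randomness which accept no pair of different multisets and find out only with probability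
`2 ^ (- N / D)` that two multisets are equal (that is, with `RP`-type coins instead of the
`coRP`-type coins of the fingerprints).

The hard instances: the positions of the first list have keys `0, 1, …, N - 1`, and the key of a
position of the second list is that of its partner in a random matching, so that the only candidate
for the permutation is this matching; in the chosen column there are free bits.
-/

set_option autoImplicit false

namespace Pool.Agent.Results.MP_92893d_lc.MultisetEquality

open Pool.Agent.W896.RK Pool.Agent.W896.FD Pool.Agent.W896.FD.MEq

/-- The bit `(false, i, l)` is the bit `l` of the word `i` of the first list, the bit
`(true, i, l)` that of the second list; `Same x` says that the two lists are equal as multisets. Let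
`w ≥ ⌈log₂ N⌉ + 1`.

1. Let `l₀` be a column and `U r` (`r` in a finite nonempty set) circuits which accept only pairs of
lists which are equal as multisets, such that each such pair is accepted by at least a
`2 ^ (- ⌊N / 2 ^ (60 (k + 1))⌋)` fraction of them. If in each `U r` the formal degrees in the `2 N`
bits of the column `l₀` sum up to at most `k N`, then some `U r` has `g` gates with
`N ≤ 2 ^ (60 (k + 1)) (⌊log₂ g⌋ + 1)`.

2. If a circuit accepts exactly the pairs of lists which are equal as multisets, and its formal
degrees in all bits sum up to at most `k (2 N w)`, then it has `g` gates with
`N ≤ 2 ^ (60 (2 k + 1)) (⌊log₂ g⌋ + 1)`. -/
theorem result (k N w : ℕ) (hw : Nat.clog 2 N + 1 ≤ w) :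
    (∀ (l₀ : Fin w) (R : Type) [Fintype R] [Nonempty R] (U : R → Circ (Bool × Fin N × Fin w)),
      (∀ r x, (U r).Val x (U r).out → Same x) →
      (∀ x, Same x →
        Nat.card R ≤ 2 ^ (N / 2 ^ (60 * (k + 1))) * Nat.card {r // (U r).Val x (U r).out}) →
      (∀ r, ∃ f : (U r).G → Bool × Fin N × Fin w → ℕ, IsDeg (U r) id f ∧
        ∑ i, (f (U r).out (false, i, l₀) + f (U r).out (true, i, l₀)) ≤ k * N) →
      ∃ r, N ≤ 2 ^ (60 * (k + 1)) * (Nat.log 2 (Fintype.card (U r).G) + 1)) ∧
    (∀ U : Circ (Bool × Fin N × Fin w), (∀ x, U.Val x U.out ↔ Same x) →
      (∃ f : U.G → Bool × Fin N × Fin w → ℕ, IsDeg U id f ∧
        ∑ x, f U.out x ≤ k * (2 * N * w)) →
      N ≤ 2 ^ (60 * (2 * k + 1)) * (Nat.log 2 (Fintype.card U.G) + 1)) :=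
  ⟨fun l₀ R _ _ U hU hc hd => meq_col k N w hw l₀ R U hU hc hd,
    fun U hU hd => meq_total k N w hw U hU hd⟩

end Pool.Agent.Results.MP_92893d_lc.MultisetEquality
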