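import Pool.Agent.W902.PDS.Sep

/-!
# One-pass randomised logspace versus deterministic linear time with a stack

`RL` and `L` in non-uniform form. On the side of `RL` we allow as little as possible: one-sided
error (arbitrarily small), a constant number of random choices, which are made at the beginning,
and then a deterministic program with `O(n)` nodes (space `log n + O(1)`) which reads every input
bit at most once, in an order which does not depend on the input. On the side of `L` we allow as
much as we can: random access to the input, `n / D` bits of memory (linear space) and in addition
a stack (pushdown store) of unlimited height with any number of steps; with polynomially many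
nodes and without a bound on the queries such programs decide all of P (Cook 1971), and with
polynomially many steps they contain `L`. The only restriction is that the input is queried at most
`k n` times, `k` being any constant.

We show that there are functions, defined on all inputs, which are easy on the side of `RL` and for
which the deterministic programs with a stack need `2 ^ (n / D)` nodes. This is so even if such
programs may use randomness with one-sided error on the other side (`coRL` with a stack) and success
probability `2 ^ (- n / D)`. So `RL` and `coRL` are separated in linear time, even if only the latter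
is given a stack and linear space.

The functions (as in `RandomNotDeterministic`, MP_b573ec_lc, where there is no stack). Take a constant
number `M` of partitions of the variables into blocks of constant size such that for any two sets
`A`, `B` of at least a constant fraction of the variables there are `i ∈ A`, `j ∈ B` which lie in the
same block of all but `M / e` of the partitions. For each set `S` of more than `M - M / e` partitions
take a random quadratic form over a finite field in the products of the variables which are together
exactly in the partitions of `S`. The function tells whether one of these forms differs from a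
prescribed value; each partition `z` gives a program which checks all the forms with `z ∈ S`. The
sum of all forms is not constant on large rectangles. The lower bound: a computation with a stack
and `k n` queries is cut into a constant number of pieces which are determined by a few nodes and
the answers to their own queries (`Pool.Agent.W896.PD.blocks`, by helper896), and the rectangle
theorem (Ajtai; Beame, Saks, Sun, Vee; `Pool.Agent.H554R2.Lin`) is applied to the pieces.
-/

set_option autoImplicit false

namespace Pool.Agent.Results.MP_92893d_lc.OnePassVersusStack

open Finset Filter Pool.Agent.H554R2.Sem Pool.Agent.H554R2.Coin Pool.Agent.W896.PD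

open Classical in
/-- `f` has one-pass randomised programs with one-sided error: there are `m ≤ D` deterministic
programs, each with at most `D n` nodes, which on all inputs queries the same variables in the same
order, each at most once. If `f x = false`, all of them answer `false`; if `f x = true`, at most
`m / e` of them answer `false`. -/
def OnePass {n : ℕ} (f : Pt n → Bool) (D e : ℕ) : Prop :=
  ∃ (m : ℕ) (q : Fin m → Pt n → Bool), 0 < m ∧ m ≤ D ∧
    (∀ j, ∃ (U : BP (Fin n) Bool) (l : List (Fin n)), Fintype.card U.State ≤ D * n ∧ l.Nodup ∧
      ∀ x : Pt n, U.Comp x l (q j x)) ∧
    (∀ x, f x = false → ∀ j, q j x = false) ∧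
    (∀ x, f x = true → e * (univ.filter fun j => q j x = false).card ≤ m)

open Classical in
/-- Each deterministic pushdown program with fewer than `2 ^ (n / D)` nodes (the stack may be
arbitrarily high, the number of steps is unlimited) which outputs `false` after at most `t` queries
on inputs with `f x = false` only, does so for at most the `2 ^ (- n / D)`-th part of these inputs.
For each finite family of such programs there is an input `x` with `f x = false` on which at most
the `2 ^ (- n / D)`-th part of the programs do so. -/
def StackFails {n : ℕ} (f : Pt n → Bool) (D t : ℕ) : Prop :=
  (∀ P : PP (Fin n) Bool, Fintype.card P.State < 2 ^ (n / D) →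
    (∀ x l, P.Comp x l false → l.length ≤ t → f x = false) →
    2 ^ (n / D) * (univ.filter fun x => ∃ l, P.Comp x l false ∧ l.length ≤ t).card ≤
      (univ.filter fun x => f x = false).card) ∧
  ∀ (Ω : Type) [Fintype Ω] (P : Ω → PP (Fin n) Bool),
    (∀ ω, Fintype.card (P ω).State < 2 ^ (n / D)) →
    (∀ ω x l, (P ω).Comp x l false → l.length ≤ t → f x = false) →
    ∃ x, f x = false ∧
      2 ^ (n / D) * Nat.card {ω // ∃ l, (P ω).Comp x l false ∧ l.length ≤ t} ≤ Nat.card Ω

/-- 1. For all `k`, `e` there is a constant `D` such that for all `n ≥ D` there is a function of `n`
variables with one-pass randomised programs of size `D n` with one-sided error `1 / e` which take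
one of at most `D` random choices, while pushdown programs of size less than `2 ^ (n / D)` with at
most `k n` queries can prove `f x = false` for an exponentially small part of these `x` only.

2. For every function `h` which tends to infinity, there is one sequence of functions for which
this holds for all `k` and `e` and all large `n`, with `h n` in place of `D`. -/
theorem result :
    (∀ k e : ℕ, ∃ D : ℕ, 0 < D ∧ ∀ n ≥ D, ∃ f : Pt n → Bool, OnePass f D e ∧
      2 ^ n ≤ D * (univ.filter fun x => f x = false).card ∧ ∀ t ≤ k * n, StackFails f D t) ∧
    ∀ h : ℕ → ℕ, Tendsto h atTop atTop → ∃ f : ∀ n, Pt n → Bool, ∀ k e : ℕ, ∃ N, ∀ n ≥ N,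
      OnePass (f n) (h n) e ∧ 2 ^ n ≤ h n * (univ.filter fun x => f n x = false).card ∧
      ∀ t ≤ k * n, StackFails (f n) (h n) t := by
  have key : ∀ (n D : ℕ) (f : Pt n → Bool), 2 ^ n ≤ D * (univ.filter fun x => f x = false).card →
      0 < (univ.filter fun x => f x = false).card := by
    intro n D f h
    by_contra h0
    have h1 : (univ.filter fun x => f x = false).card = 0 := by omega
    rw [h1, mul_zero] at h
    exact absurd h (not_le.2 (Nat.pow_pos (by norm_num)))
  constructor
  · intro k e
    obtain ⟨D, hD, h⟩ := Pool.Agent.W902.PDS.fixed k e
    refine ⟨D, hD, fun n hn => ?_⟩
    obtain ⟨f, h1, h2, h3⟩ := h n hn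
    exact ⟨f, h1, h2, fun t ht => ⟨h3 t ht, fun Ω _ P hP hs =>
      (h3 t ht).family (key n D f h2) Ω P hP hs⟩⟩
  · intro h hh
    obtain ⟨f, hf⟩ := Pool.Agent.W902.PDS.uniform h hh
    refine ⟨f, fun k e => ?_⟩
    obtain ⟨N, hN⟩ := hf k e
    refine ⟨N, fun n hn => ?_⟩
    obtain ⟨h1, h2, h3⟩ := hN n hn
    exact ⟨h1, h2, fun t ht => ⟨h3 t ht, fun Ω _ P hP hs =>
      (h3 t ht).family (key n (h n) (f n) h2) Ω P hP hs⟩⟩

end Pool.Agent.Results.MP_92893d_lc.OnePassVersusStack
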