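import Pool.Agent.W953.RW.Win

/-!
# `RL` and `L`: few tests on few numbers of arcs

The random walk problem: accept the digraphs in which the random walk from `s` finds `t` within
`2 v` steps with probability at least `1 / 2`, reject the digraphs without a path from `s` to `t`
(`v` is the number of vertices). It is complete for the promise version of `RL`. `Easy` says that it
has undirected switching networks of polynomial size over the literals, so it is the nonuniform form
of `RL = L` for promise problems. `EasyOn τ W` says that for all `k` there are decision trees of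
depth `τ v` and polynomial size, whose tests and leaves are monotone undirected networks (`τ v` NOT
gates), that solve the problem on the digraphs with at least `k` and less than `k + W v` arcs.

Here it is shown that `EasyOn τ W` and `Easy` are equivalent if `1 ≤ W ≤ 2 ^ τ`, and that
`EasyOn τ W` is false if `W` is at least `2 ^ τ * 2 ^ (C * √(log v))` for all constants `C`.
-/

set_option autoImplicit false

namespace Pool.Agent.Results.MP_92893d_lc.RandomWalkWindows

open Filter Pool.Agent.W953.RW

/-- (1) If `1 ≤ W v ≤ 2 ^ τ v` then `EasyOn τ W` is equivalent to `Easy`. (2) If for every `C` there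
are infinitely many `v` with `2 ^ τ v * 2 ^ (C * (√(log v) + 1)) ≤ min (W v) v`, then `EasyOn τ W`
is false. -/
theorem result :
    (∀ τ W : ℕ → ℕ, (∀ v, 1 ≤ W v ∧ W v ≤ 2 ^ τ v) → (EasyOn τ W ↔ Easy)) ∧
    (∀ τ W : ℕ → ℕ, (∀ C : ℕ, ∃ᶠ v : ℕ in atTop,
      2 ^ (τ v + C * (Nat.sqrt (Nat.log 2 v) + 1)) ≤ min (W v) v) → ¬ EasyOn τ W) :=
  ⟨easy_iff, not_on⟩

end Pool.Agent.Results.MP_92893d_lc.RandomWalkWindows
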